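import Pool.Agent.Helper18_LSG.AsmB
import Pool.Agent.NPG.Stmts
import Pool.Agent.Helper21_NPG.DEC
import Pool.Agent.Helper48_NPG.ONE
import Pool.Agent.Helper77_NPG.QML
import Pool.Agent.Helper61_NPG.COV
import Pool.Agent.Helper44_NPG.SLR
import Pool.Agent.Helper63_NPG.JEX
import Pool.Agent.Helper47_NPG.SCN
import Pool.Agent.Helper75_NPG.CPW
import Pool.Agent.Helper16_NPG.DSQ
import Pool.Agent.Helper19_NPG.PRD
import Pool.Agent.Helper52_NPG.ST8
import Pool.Agent.Helper71_NPG.LSE
import Pool.Agent.Helper32_NPG.FLO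
import Pool.Agent.Helper1_NPG.FGL
import Pool.Agent.Helper49_NPG.LGR

/-!
# Squad NPG (MP_005a41_gt): assembly of Theorems A and B
-/

set_option autoImplicit false

open scoped Pointwise

namespace Pool.Agent.NPG.H55

open Pool.Agent.LSG

theorem scn_ : ScnStmt := H47.scn H77.qml (H61.cov (H18.sto H97.ctk))

theorem one_ : OneStmt := H48.one H44.slr H97.ctk

theorem dec_ : DecStmt := H21.dec H37.dug (H63.jex H37.dug)

theorem cpw_ : CpwStmt := H75.cpw H16.dsq H71.lse scn_ one_ dec_ H19.prd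

theorem st8_ : St8Stmt := H52.st8 H37.pel H18.cex H99.cpe H21.bri

/-- Theorem A: metrizable groups which are not precompact -/
theorem np_ (H : Type) [Group H] [TopologicalSpace H] [IsTopologicalGroup H]
    [TopologicalSpace.MetrizableSpace H]
    (h : ∃ U ∈ nhds (1 : H), ∀ F : Finset H, (⋃ g ∈ F, g • U) ≠ Set.univ) :
    LEq H (H × ℕ) ∧ LStable H := st8_ H (cpw_ H h)

/-- Theorem B: metrizable groups with a closed line -/
theorem lgr_ : LgrStmt := H49.lgr H18.rxs_ (H1.fgl H77.qml H32.flo) H99.cpe H21.bri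

end Pool.Agent.NPG.H55
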